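import Pool.Agent.FGT.Stmts

/-!
# Squad FGT: the row PSD
-/

set_option autoImplicit false

namespace Pool.Agent.FGT.H75

open Filter Topology Pool.Agent.FGT

universe u

/-- the quadratic form of an equivalence relation -/
theorem quad_nonneg {β : Type*} [DecidableEq β] (s : Finset ℤ) (d : ℤ → ℝ) (f : ℤ → β) :
    0 ≤ ∑ i ∈ s, ∑ j ∈ s, d i * d j * (if f i = f j then 1 else 0) := by
  have h1 : ∑ i ∈ s, ∑ j ∈ s, d i * d j * (if f i = f j then (1 : ℝ) else 0) =
      ∑ q ∈ s.image f, (∑ i ∈ s, d i * (if f i = q then 1 else 0)) ^ 2 := by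
    calc ∑ i ∈ s, ∑ j ∈ s, d i * d j * (if f i = f j then (1 : ℝ) else 0)
        = ∑ i ∈ s, ∑ q ∈ s.image f, ∑ j ∈ s, (d i * (if f i = q then (1 : ℝ) else 0)) *
          (d j * (if f j = q then (1 : ℝ) else 0)) := by
          refine Finset.sum_congr rfl fun i hi => ?_
          rw [Finset.sum_comm]
          refine Finset.sum_congr rfl fun j _ => ?_
          rw [Finset.sum_eq_single (f i)]
          · by_cases h : f i = f j
            · simp [h]
            · simp [h, Ne.symm h]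
          · intro q _ hq
            rw [if_neg (Ne.symm hq), mul_zero, zero_mul]
          · intro h
            exact absurd (Finset.mem_image_of_mem f hi) h
      _ = ∑ q ∈ s.image f, ∑ i ∈ s, ∑ j ∈ s, (d i * (if f i = q then (1 : ℝ) else 0)) *
          (d j * (if f j = q then (1 : ℝ) else 0)) := Finset.sum_comm
      _ = _ := by
          refine Finset.sum_congr rfl fun q _ => ?_
          rw [sq, Finset.sum_mul_sum]
  rw [h1]
  exact Finset.sum_nonneg fun q _ => sq_nonneg _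

section

variable {L : Type u} [Group L] (α : L →* Equiv.Perm ℤ)

theorem lk_refl (y z : ℤ) : Lk α y z z := ⟨1, by simp, by simp⟩

theorem lk_symm {y z z' : ℤ} (h : Lk α y z z') : Lk α y z' z := by
  obtain ⟨g, h1, h2⟩ := h
  refine ⟨g⁻¹, ?_, ?_⟩
  · rw [map_inv, Equiv.Perm.inv_eq_iff_eq]; exact h1.symm
  · rw [map_inv, Equiv.Perm.inv_eq_iff_eq]; exact h2.symm

theorem lk_trans {y z z' z'' : ℤ} (h : Lk α y z z') (h' : Lk α y z' z'') : Lk α y z z'' := by
  obtain ⟨g, h1, h2⟩ := h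
  obtain ⟨g', h3, h4⟩ := h'
  refine ⟨g' * g, ?_, ?_⟩
  · rw [map_mul, Equiv.Perm.mul_apply, h1, h3]
  · rw [map_mul, Equiv.Perm.mul_apply, h2, h4]

/-- the equivalence relation `Lk α y` -/
def lkS (y : ℤ) : Setoid ℤ where
  r := Lk α y
  iseqv := ⟨lk_refl α y, lk_symm α, lk_trans α⟩

/-- the stabilizer of `z` -/
def St (z : ℤ) : Subgroup L where
  carrier := {g | α g z = z}
  one_mem' := by simp
  mul_mem' := by
    intro a b ha hb
    show α (a * b) z = z
    rw [map_mul, Equiv.Perm.mul_apply, show α b z = z from hb, show α a z = z from ha]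
  inv_mem' := by
    intro a ha
    show α a⁻¹ z = z
    rw [map_inv, Equiv.Perm.inv_eq_iff_eq]
    exact (show α a z = z from ha).symm

theorem mem_fx_iff (z : ℤ) (K : Subgroup L) : z ∈ Fx α K ↔ K ≤ St α z := Iff.rfl

theorem ii_mono {K K' : Subgroup L} (h : K ≤ K') : II α K ⊆ II α K' := by
  intro y hy
  refine Set.Infinite.mono ?_ hy
  rintro i ⟨g, hg, rfl⟩
  exact ⟨g, h hg, rfl⟩

/-- the set in the definition of the kernel -/
def BB (K K' : Subgroup L) (z z' : ℤ) : Set ℤ := {y | y ∈ II α K ∧ y ∈ II α K' ∧ Lk α y z z'}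

theorem bb_mono {K K' M M' : Subgroup L} (h : K ≤ M) (h' : K' ≤ M') (z z' : ℤ) :
    BB α K K' z z' ⊆ BB α M M' z z' := fun _ hy => ⟨ii_mono α h hy.1, ii_mono α h' hy.2.1, hy.2.2⟩

theorem le_kk {I : (ℤ → ℝ) → ℝ} (hI : IsMean I) {K K' : Subgroup L} (hK : K.FG) (hK' : K'.FG)
    {z z' : ℤ} (hz : z ∈ Fx α K) (hz' : z' ∈ Fx α K') : ms I (BB α K K' z z') ≤ kk α I z z' := by
  unfold kk
  refine le_csSup ⟨1, ?_⟩ ⟨K, K', hK, hK', hz, hz', rfl⟩
  rintro r ⟨K, K', _, _, _, _, rfl⟩
  exact hI.ms_le_one _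

theorem exists_kk (I : (ℤ → ℝ) → ℝ) (z z' : ℤ) {η : ℝ} (hη : 0 < η) :
    ∃ K K' : Subgroup L, K.FG ∧ K'.FG ∧ z ∈ Fx α K ∧ z' ∈ Fx α K' ∧
      kk α I z z' - η < ms I (BB α K K' z z') := by
  have hne : {r | ∃ K K' : Subgroup L, K.FG ∧ K'.FG ∧ z ∈ Fx α K ∧ z' ∈ Fx α K' ∧
      r = ms I {y | y ∈ II α K ∧ y ∈ II α K' ∧ Lk α y z z'}}.Nonempty :=
    ⟨_, ⊥, ⊥, Subgroup.FG.bot, Subgroup.FG.bot, (mem_fx_iff α z ⊥).2 bot_le,
      (mem_fx_iff α z' ⊥).2 bot_le, rfl⟩
  obtain ⟨r, ⟨K, K', h1, h2, h3, h4, rfl⟩, hr⟩ :=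
    exists_lt_of_lt_csSup hne (show kk α I z z' - η < kk α I z z' by linarith)
  exact ⟨K, K', h1, h2, h3, h4, hr⟩

end

theorem psd : PsdStmt.{u} := by
  intro L _ α _ I hI s c
  classical
  set S := ∑ i ∈ s, ∑ j ∈ s, c i * c j * kk α I i j with hS
  set C := ∑ i ∈ s, ∑ j ∈ s, |c i * c j| with hC
  have hC0 : 0 ≤ C := Finset.sum_nonneg fun i _ => Finset.sum_nonneg fun j _ => abs_nonneg _
  have key : ∀ η : ℝ, 0 < η → - (η * C) ≤ S := by
    intro η hη
    choose K K' h1 h2 h3 h4 h5 using fun i j => exists_kk α I i j hη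
    set P : ℤ → Subgroup L := fun i => s.sup fun j => K i j ⊔ K' j i with hP
    have hPF : ∀ i, (P i).FG := fun i =>
      Finset.sup_induction (p := fun M : Subgroup L => M.FG) Subgroup.FG.bot
        (fun _ ha _ hb => ha.sup hb) fun j _ => (h1 i j).sup (h2 j i)
    have hPx : ∀ i, i ∈ Fx α (P i) := fun i =>
      (mem_fx_iff α i _).2 (Finset.sup_le fun j _ => sup_le ((mem_fx_iff α i _).1 (h3 i j))
        ((mem_fx_iff α i _).1 (h4 j i)))
    have hKP : ∀ i, ∀ j ∈ s, K i j ≤ P i := fun i j hj =>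
      le_sup_left.trans (Finset.le_sup (f := fun j => K i j ⊔ K' j i) hj)
    have hKP' : ∀ j, ∀ i ∈ s, K' i j ≤ P j := fun j i hi =>
      le_sup_right.trans (Finset.le_sup (f := fun i => K j i ⊔ K' i j) hi)
    -- the masses
    have hm : ∀ i ∈ s, ∀ j ∈ s, |ms I (BB α (P i) (P j) i j) - kk α I i j| ≤ η := by
      intro i hi j hj
      have a1 := le_kk α hI (hPF i) (hPF j) (hPx i) (hPx j)
      have a2 := hI.ms_mono (bb_mono α (hKP i j hj) (hKP' j i hi) i j)
      have a3 := h5 i j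
      rw [abs_le]
      constructor <;> linarith
    -- the quadratic form
    set q : ℤ → ℝ := ∑ i ∈ s, ∑ j ∈ s, (c i * c j) • ind (BB α (P i) (P j) i j) with hq
    have hb : ∀ i j : ℤ, Bdd ((c i * c j) • ind (BB α (P i) (P j) i j)) := fun i j =>
      (Bdd.ind _).smul _
    have hb1 : ∀ i : ℤ, Bdd (∑ j ∈ s, (c i * c j) • ind (BB α (P i) (P j) i j)) := fun i =>
      Bdd.sum s _ fun j _ => hb i j
    have hqI : I q = ∑ i ∈ s, ∑ j ∈ s, c i * c j * ms I (BB α (P i) (P j) i j) := by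
      rw [hq, hI.sum s _ fun i _ => hb1 i]
      refine Finset.sum_congr rfl fun i _ => ?_
      rw [hI.sum s _ fun j _ => hb i j]
      refine Finset.sum_congr rfl fun j _ => ?_
      rw [hI.smul _ (Bdd.ind _)]
      rfl
    have hq0 : 0 ≤ I q := by
      refine hI.nonneg (Bdd.sum s _ fun i _ => hb1 i) fun y => ?_
      have e1 : q y = ∑ i ∈ s, ∑ j ∈ s, (c i * (if y ∈ II α (P i) then 1 else 0)) *
          (c j * (if y ∈ II α (P j) then 1 else 0)) *
          (if (Quotient.mk (lkS α y) i) = Quotient.mk (lkS α y) j then 1 else 0) := by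
        rw [hq, Finset.sum_apply]
        refine Finset.sum_congr rfl fun i _ => ?_
        rw [Finset.sum_apply]
        refine Finset.sum_congr rfl fun j _ => ?_
        rw [Pi.smul_apply, smul_eq_mul]
        have e2 : (Quotient.mk (lkS α y) i = Quotient.mk (lkS α y) j) ↔ Lk α y i j :=
          Quotient.eq (r := lkS α y)
        by_cases a1 : y ∈ II α (P i)
        · by_cases a2 : y ∈ II α (P j)
          · by_cases a3 : Lk α y i j
            · rw [ind_of_mem (show y ∈ BB α (P i) (P j) i j from ⟨a1, a2, a3⟩), if_pos a1, if_pos a2,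
                if_pos (e2.2 a3)]
              ring
            · rw [ind_of_not_mem (show y ∉ BB α (P i) (P j) i j from fun h => a3 h.2.2),
                if_neg (fun h => a3 (e2.1 h))]
              ring
          · rw [ind_of_not_mem (show y ∉ BB α (P i) (P j) i j from fun h => a2 h.2.1), if_neg a2]
            ring
        · rw [ind_of_not_mem (show y ∉ BB α (P i) (P j) i j from fun h => a1 h.1), if_neg a1]
          ring
      rw [e1]
      exact quad_nonneg s _ _
    rw [hqI] at hq0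
    have h6 : |∑ i ∈ s, ∑ j ∈ s, c i * c j * ms I (BB α (P i) (P j) i j) - S| ≤ η * C := by
      rw [hS, ← Finset.sum_sub_distrib, hC, Finset.mul_sum]
      refine (Finset.abs_sum_le_sum_abs _ _).trans (Finset.sum_le_sum fun i hi => ?_)
      rw [← Finset.sum_sub_distrib, Finset.mul_sum]
      refine (Finset.abs_sum_le_sum_abs _ _).trans (Finset.sum_le_sum fun j hj => ?_)
      rw [← mul_sub, abs_mul, mul_comm η]
      exact mul_le_mul_of_nonneg_left (hm i hi j hj) (abs_nonneg _)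
    have h7 := (abs_le.1 h6).2
    linarith
  by_contra hneg
  push Not at hneg
  have h8 := key (-S / (2 * (C + 1))) (by
    apply div_pos <;> linarith)
  have h9 : -S / (2 * (C + 1)) * C ≤ -S / 2 := by
    rw [div_mul_eq_mul_div, div_le_div_iff₀ (by positivity) (by norm_num)]
    nlinarith
  linarith

end Pool.Agent.FGT.H75
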